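import Pool.Agent.T2H18.FF.Contra

/-!
# Sequences with the doubling inequality
-/

set_option autoImplicit false

namespace Pool.Agent.T2H18.FF

open Finset Filter Topology

/-- the doubling inequality -/
def Dbl (lam : ℕ) (v : ℕ → ℕ) : Prop := ∀ m, 1 ≤ m → v (m * 2) = v m ∨
  (lam : ℝ) * v m - √(lam * v m) - 1 ≤ √(lam * v (m * 2))

/-- the normalised form -/
lemma norm_ineq {lam x y u W : ℝ} (hlam : 0 < lam) (hx : 0 ≤ x) (hxW : x ≤ W) (hy : 0 ≤ y)
    (hu : 0 < u) (h : lam * (x / u) - √(lam * (x / u)) - 1 ≤ √(lam * (y / u ^ 2))) :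
    lam * x ^ 2 - 2 * W * (√(lam * W * u) + u) ≤ y := by
  have hW : 0 ≤ W := hx.trans hxW
  have e1 : √(lam * (y / u ^ 2)) = √(lam * y) / u := by
    rw [show lam * (y / u ^ 2) = (lam * y) / u ^ 2 by ring, Real.sqrt_div' _ (by positivity),
      Real.sqrt_sq hu.le]
  have e2 : u * √(lam * (x / u)) = √(lam * x * u) := by
    have : lam * x * u = u ^ 2 * (lam * (x / u)) := by field_simp
    rw [this, Real.sqrt_mul (sq_nonneg u), Real.sqrt_sq hu.le]
  rw [e1, le_div_iff₀ hu] at h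
  have e3 : (lam * (x / u) - √(lam * (x / u)) - 1) * u = lam * x - √(lam * x * u) - u := by
    rw [← e2]
    field_simp
  rw [e3] at h
  have e4 : √(lam * x * u) ≤ √(lam * W * u) := by
    apply Real.sqrt_le_sqrt
    gcongr
  obtain ⟨η, hη⟩ : ∃ η, η = √(lam * W * u) + u := ⟨_, rfl⟩
  have hη0 : 0 ≤ η := by rw [hη]; positivity
  rw [← hη]
  have h1 : lam * x - η ≤ √(lam * y) := by rw [hη]; linarith
  by_cases hc : η ≤ lam * x
  · have h2 : (lam * x - η) ^ 2 ≤ lam * y := by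
      have := pow_le_pow_left₀ (by linarith) h1 2
      rwa [Real.sq_sqrt (by positivity)] at this
    have h3 : lam * (lam * x ^ 2 - 2 * x * η) ≤ lam * y := by nlinarith
    have h4 := le_of_mul_le_mul_left h3 hlam
    nlinarith
  · push Not at hc
    nlinarith

theorem core {v : ℕ → ℕ} {lam : ℕ} (hlam : 2 ≤ lam)
    (hmono : ∀ m j, 1 ≤ m → 1 ≤ j → v m ≤ v (m * j)) (hd : Dbl lam v) (n : ℕ) :
    ∀ (N : ℕ), 1 ≤ N → ∀ S : Finset ℂ, S.card = n → ∀ c : ℂ → ℤ,
      (∀ m, 1 ≤ m → (v (N * m) : ℂ) = ∑ a ∈ S, (c a : ℂ) * a ^ m) →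
      ∃ K, ∀ m, 1 ≤ m → v (N * m) ≤ K := by
  classical
  induction n using Nat.strong_induction_on with
  | _ n ih =>
  intro N hN S hS c hv
  by_cases h1 : ∃ a ∈ S, c a = 0 ∨ a = 0
  · obtain ⟨a, ha, ha0⟩ := h1
    refine ih (S.erase a).card (by rw [← hS]; exact Finset.card_erase_lt_of_mem ha) N hN _ rfl c
      fun m hm => ?_
    rw [hv m hm, ← Finset.add_sum_erase S _ ha]
    rcases ha0 with h | h
    · rw [h]; simp
    · rw [h, zero_pow (by omega)]; simp
  push Not at h1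
  by_cases h2 : ∃ d, 1 ≤ d ∧ ∃ a ∈ S, ∃ b ∈ S, a ≠ b ∧ a ^ d = b ^ d
  · obtain ⟨d, hd1, a, ha, b, hb, hab, hpow⟩ := h2
    have hlt : (S.image fun a => a ^ d).card < S.card := by
      refine lt_of_le_of_ne Finset.card_image_le fun h => ?_
      exact hab (Finset.card_image_iff.1 h ha hb hpow)
    obtain ⟨K, hK⟩ := ih _ (by rw [← hS]; exact hlt) (N * d) (Nat.mul_pos hN hd1) _ rfl
      (fun b => ∑ a ∈ S with a ^ d = b, c a) (fun m hm => by
        rw [mul_assoc, hv (d * m) (Nat.mul_pos hd1 hm)]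
        rw [← Finset.sum_fiberwise_of_maps_to (g := fun a => a ^ d)
          (fun a ha => Finset.mem_image_of_mem _ ha)]
        refine Finset.sum_congr rfl fun b _ => ?_
        push_cast
        rw [Finset.sum_mul]
        refine Finset.sum_congr rfl fun a ha => ?_
        rw [pow_mul, (Finset.mem_filter.1 ha).2])
    refine ⟨K, fun m hm => ?_⟩
    have h3 := hmono (N * m) d (Nat.mul_pos hN hm) hd1
    rw [show N * m * d = N * d * m by ring] at h3
    exact h3.trans (hK m hm)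
  push Not at h2
  obtain ⟨W, hW⟩ : ∃ W : ℝ, W = ∑ a ∈ S, ‖(c a : ℂ)‖ := ⟨_, rfl⟩
  by_cases h3 : ∀ a ∈ S, ‖a‖ ≤ 1
  · refine ⟨⌈W⌉₊, fun m hm => ?_⟩
    have h4 : (v (N * m) : ℝ) ≤ W := by
      have h5 : ‖(v (N * m) : ℂ)‖ ≤ W := by
        rw [hv m hm, hW]
        refine (norm_sum_le _ _).trans (Finset.sum_le_sum fun a ha => ?_)
        rw [norm_mul, norm_pow]
        exact mul_le_of_le_one_right (norm_nonneg _) (pow_le_one₀ (norm_nonneg _) (h3 a ha))
      rwa [Complex.norm_natCast] at h5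
    exact_mod_cast h4.trans (Nat.le_ceil W)
  exfalso
  push Not at h3
  obtain ⟨a₀, ha₀, ha₀1⟩ := h3
  obtain ⟨a₁, ha₁, hmax⟩ := Finset.exists_max_image S (fun a => ‖a‖) ⟨a₀, ha₀⟩
  obtain ⟨R, hR⟩ : ∃ R : ℝ, R = ‖a₁‖ := ⟨_, rfl⟩
  have hR1 : 1 < R := by rw [hR]; exact ha₀1.trans_le (hmax a₀ ha₀)
  have hR0 : 0 < R := by linarith
  have hRC : (R : ℂ) ≠ 0 := by exact_mod_cast hR0.ne'
  have hnormR : ‖(R : ℂ)‖ = R := by rw [Complex.norm_real, Real.norm_eq_abs, abs_of_pos hR0]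
  obtain ⟨w, hw⟩ : ∃ w : ℕ → ℝ, w = fun m => (v (N * m) : ℝ) / R ^ m := ⟨_, rfl⟩
  have hw0 : ∀ m, 0 ≤ w m := fun m => by rw [hw]; positivity
  have hwS : ∀ m, 1 ≤ m → (w m : ℂ) = ∑ a ∈ S, (c a : ℂ) * (a / R) ^ m := by
    intro m hm
    rw [hw]
    push_cast
    rw [hv m hm, Finset.sum_div]
    refine Finset.sum_congr rfl fun a _ => ?_
    rw [div_pow, mul_div_assoc]
  have hle : ∀ a ∈ S, ‖a / R‖ ≤ 1 := by
    intro a ha
    rw [norm_div, hnormR, div_le_one hR0, hR]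
    exact hmax a ha
  have hwW : ∀ m, 1 ≤ m → w m ≤ W := by
    intro m hm
    have h5 : ‖(w m : ℂ)‖ ≤ W := by
      rw [hwS m hm, hW]
      refine (norm_sum_le _ _).trans (Finset.sum_le_sum fun a ha => ?_)
      rw [norm_mul, norm_pow]
      exact mul_le_of_le_one_right (norm_nonneg _) (pow_le_one₀ (norm_nonneg _) (hle a ha))
    rwa [Complex.norm_real, Real.norm_eq_abs, abs_of_nonneg (hw0 m)] at h5
  have hW0 : 0 ≤ W := (hw0 1).trans (hwW 1 le_rfl)
  have hlamR : (2 : ℝ) ≤ lam := by exact_mod_cast hlam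
  obtain ⟨u, hu⟩ : ∃ u : ℕ → ℝ, u = fun m => (R ^ m)⁻¹ := ⟨_, rfl⟩
  have hu0 : Tendsto u atTop (𝓝 0) := by
    rw [hu]
    exact (tendsto_pow_atTop_atTop_of_one_lt hR1).inv_tendsto_atTop
  have hupos : ∀ m, 0 < u m := fun m => by rw [hu]; positivity
  obtain ⟨δ, hδ⟩ : ∃ δ : ℕ → ℝ, δ = fun m =>
    2 * W * (√(lam * W * u m) + u m) + W * u m := ⟨_, rfl⟩
  refine contra (s := S.filter fun a => ‖a‖ = R) ⟨a₁, mem_filter.2 ⟨ha₁, hR.symm⟩⟩ c
    (fun a => a / R) ?_ ?_ ?_ w ?_ δ ?_ lam hlamR ?_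
  · intro a ha
    rw [norm_div, hnormR, (mem_filter.1 ha).2, div_self hR0.ne']
  · intro a ha
    exact (h1 a (mem_filter.1 ha).1).1
  · intro a ha b hb hab d hd1 h
    rw [div_pow, div_pow, div_left_inj' (pow_ne_zero d hRC)] at h
    exact h2 d hd1 a (mem_filter.1 ha).1 b (mem_filter.1 hb).1 hab h
  · have h5 : Tendsto (fun m => ∑ a ∈ S.filter fun a => ¬ ‖a‖ = R, (c a : ℂ) * (a / R) ^ m) atTop
        (𝓝 (∑ a ∈ S.filter fun a => ¬ ‖a‖ = R, (c a : ℂ) * 0)) := by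
      refine tendsto_finsetSum _ fun a ha => Tendsto.const_mul _ ?_
      refine tendsto_pow_atTop_nhds_zero_of_norm_lt_one ?_
      have h6 := hle a (mem_filter.1 ha).1
      refine lt_of_le_of_ne h6 fun h7 => (mem_filter.1 ha).2 ?_
      rw [norm_div, hnormR, div_eq_one_iff_eq hR0.ne'] at h7
      exact h7
    simp only [mul_zero, Finset.sum_const_zero] at h5
    refine h5.congr' ?_
    filter_upwards [eventually_ge_atTop 1] with m hm
    rw [hwS m hm, ← Finset.sum_filter_add_sum_filter_not S (fun a => ‖a‖ = R)]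
    ring
  · rw [hδ]
    have h5 : Tendsto (fun m => √(lam * W * u m)) atTop (𝓝 0) := by
      have := ((hu0.const_mul (lam * W)).sqrt)
      simpa using this
    have := ((h5.add hu0).const_mul (2 * W)).add (hu0.const_mul W)
    simpa using this
  · filter_upwards [eventually_ge_atTop 1] with m hm
    have hm2 : w (2 * m) = (v (N * m * 2) : ℝ) * u m ^ 2 := by
      rw [hw, hu]
      simp only
      rw [show N * (2 * m) = N * m * 2 by ring, mul_comm 2 m, pow_mul, div_eq_mul_inv, inv_pow]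
    have hm1 : w m = (v (N * m) : ℝ) * u m := by
      rw [hw, hu]
      simp only
      rw [div_eq_mul_inv]
    rcases hd (N * m) (Nat.mul_pos hN hm) with h5 | h5
    · left
      rw [abs_of_nonneg (hw0 _), hm2, h5, hδ]
      simp only
      have h6 : (v (N * m) : ℝ) * u m ^ 2 = w m * u m := by rw [hm1]; ring
      rw [h6]
      have h7 := mul_le_mul_of_nonneg_right (hwW m hm) (hupos m).le
      have h8 : 0 ≤ 2 * W * (√(lam * W * u m) + u m) := by
        have := hupos m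
        positivity
      linarith
    · right
      have h6 : (v (N * m) : ℝ) = w m / u m := by
        rw [hm1, mul_div_assoc, div_self (hupos m).ne', mul_one]
      have h7 : (v (N * m * 2) : ℝ) = w (2 * m) / u m ^ 2 := by
        rw [hm2, mul_div_assoc, div_self (pow_ne_zero 2 (hupos m).ne'), mul_one]
      rw [h6, h7] at h5
      have h8 := norm_ineq (by linarith) (hw0 m) (hwW m hm) (hw0 (2 * m)) (hupos m) h5
      rw [hδ]
      simp only
      have h9 := mul_nonneg hW0 (hupos m).le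
      linarith

/-- growth -/
theorem growth {v : ℕ → ℕ} {lam : ℕ} (hlam : 1 ≤ lam) (hd : Dbl lam v)
    (hp : ∀ᶠ m in atTop, v (m * 2) ≠ v m) {C R : ℝ} (hR : 1 < R)
    (hC : ∀ m, 1 ≤ m → (v m : ℝ) ≤ C * R ^ m) {ε : ℝ} (hε : 0 < ε) :
    ∀ᶠ m in atTop, (lam : ℝ) * v m ≤ (1 + ε) * R ^ m := by
  obtain ⟨m₀, hm₀⟩ := eventually_atTop.1 hp
  have hR0 : 0 < R := by linarith
  have hlamR : (1 : ℝ) ≤ lam := by exact_mod_cast hlam
  have hgap : 0 < √(1 + ε) - √(1 + ε / 2) := by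
    rw [sub_pos]
    exact Real.sqrt_lt_sqrt (by positivity) (by linarith)
  have hpow : Tendsto (fun m : ℕ => √(R ^ m)) atTop atTop :=
    Real.tendsto_sqrt_atTop.comp (tendsto_pow_atTop_atTop_of_one_lt hR)
  filter_upwards [eventually_ge_atTop (max m₀ 1), hpow.eventually_ge_atTop 2,
    hpow.eventually_ge_atTop (1 / (√(1 + ε) - √(1 + ε / 2)))] with m hm hm2 hm3
  by_contra hcon
  push Not at hcon
  have hm1 : 1 ≤ m := (le_max_right _ _).trans hm
  have hmm : m₀ ≤ m := (le_max_left _ _).trans hm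
  obtain ⟨q, hq⟩ : ∃ q : ℝ, q = √(1 + ε / 2) * √(R ^ m) := ⟨_, rfl⟩
  have hq2 : 2 ≤ q := by
    have h1 : 1 ≤ √(1 + ε / 2) := by
      rw [Real.one_le_sqrt]
      linarith
    rw [hq]
    nlinarith
  have hqsq : q ^ 2 = (1 + ε / 2) * R ^ m := by
    rw [hq, mul_pow, Real.sq_sqrt (by positivity), Real.sq_sqrt (by positivity)]
  have key : ∀ j : ℕ, q ^ 2 ^ j ≤ √(lam * v (m * 2 ^ j)) - 1 := by
    intro j
    induction j with
    | zero =>
      rw [pow_zero, pow_one, mul_one]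
      have h1 : √(1 + ε) * √(R ^ m) ≤ √(lam * v m) := by
        rw [← Real.sqrt_mul (by positivity)]
        exact Real.sqrt_le_sqrt hcon.le
      have h2 : 1 ≤ (√(1 + ε) - √(1 + ε / 2)) * √(R ^ m) := by
        rw [div_le_iff₀ hgap] at hm3
        linarith
      rw [hq]
      linarith
    | succ j ih =>
      have h1 : 1 ≤ m * 2 ^ j := Nat.mul_pos hm1 (by positivity)
      have h2 : m₀ ≤ m * 2 ^ j := hmm.trans (Nat.le_mul_of_pos_right _ (by positivity))
      rcases hd (m * 2 ^ j) h1 with h3 | h3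
      · exact absurd h3 (hm₀ _ h2)
      · rw [pow_succ, ← mul_assoc, pow_mul]
        obtain ⟨X, hX⟩ : ∃ X : ℝ, X = √(lam * v (m * 2 ^ j)) := ⟨_, rfl⟩
        have hXsq : X ^ 2 = lam * v (m * 2 ^ j) := by
          rw [hX, Real.sq_sqrt (by positivity)]
        rw [← hX, ← hXsq] at h3
        rw [← hX] at ih
        have h4 : 2 ≤ q ^ 2 ^ j := by
          calc (2 : ℝ) ≤ q := hq2
            _ = q ^ 1 := (pow_one q).symm
            _ ≤ q ^ 2 ^ j := pow_le_pow_right₀ (by linarith) Nat.one_le_two_pow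
        obtain ⟨Y, hY⟩ : ∃ Y : ℝ, Y = q ^ 2 ^ j := ⟨_, rfl⟩
        rw [← hY] at ih h4 ⊢
        nlinarith
  have hbd : ∀ j : ℕ, (1 + ε / 2) ^ 2 ^ j ≤ lam * C := by
    intro j
    have h1 := key j
    have h2 : 0 ≤ q ^ 2 ^ j := by positivity
    have h3 : (q ^ 2 ^ j) ^ 2 ≤ lam * v (m * 2 ^ j) := by
      have h4 : q ^ 2 ^ j ≤ √(lam * v (m * 2 ^ j)) := by linarith
      have h5 := pow_le_pow_left₀ h2 h4 2
      rwa [Real.sq_sqrt (by positivity)] at h5
    have h4 : (q ^ 2 ^ j) ^ 2 = (1 + ε / 2) ^ 2 ^ j * R ^ (m * 2 ^ j) := by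
      rw [← pow_mul, mul_comm (2 ^ j) 2, pow_mul, hqsq, mul_pow, ← pow_mul]
    rw [h4] at h3
    have h5 := mul_le_mul_of_nonneg_left (hC (m * 2 ^ j) (Nat.mul_pos hm1 (by positivity)))
      (show (0 : ℝ) ≤ lam by linarith)
    have h6 : (1 + ε / 2) ^ 2 ^ j * R ^ (m * 2 ^ j) ≤ (lam * C) * R ^ (m * 2 ^ j) := by
      rw [mul_assoc]
      exact h3.trans h5
    exact le_of_mul_le_mul_right h6 (by positivity)
  have ht : Tendsto (fun j : ℕ => (1 + ε / 2) ^ 2 ^ j) atTop atTop :=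
    (tendsto_pow_atTop_atTop_of_one_lt (by linarith)).comp
      (tendsto_pow_atTop_atTop_of_one_lt (by norm_num))
  obtain ⟨j, hj⟩ := (ht.eventually_gt_atTop (lam * C)).exists
  exact absurd (hbd j) (not_le.2 hj)

end Pool.Agent.T2H18.FF
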