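import Mathlib

/-!
# Symmetric designs inside symmetric designs with the same `λ`
-/

set_option autoImplicit false

namespace Pool.Agent.T2H18.FF

open Finset
open scoped Classical

variable {P Q : Type} {I : P → Q → Prop}

/-- symmetric designs on finite sets of points and blocks -/
structure Des (I : P → Q → Prop) (lam k : ℕ) (A : Finset P) (B : Finset Q) : Prop where
  card_eq : B.card = A.card
  two_le : 2 ≤ k
  lt : k < A.card
  block : ∀ y ∈ B, (A.filter fun x => I x y).card = k
  pair : ∀ x ∈ A, ∀ x' ∈ A, x ≠ x' → (B.filter fun y => I x y ∧ I x' y).card = lam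

namespace Des

variable {lam k : ℕ} {A : Finset P} {B : Finset Q}

/-- indicator -/
noncomputable def ind (I : P → Q → Prop) (x : P) (y : Q) : ℤ := if I x y then 1 else 0

lemma ind_mul (x x' : P) (y : Q) : ind I x y * ind I x' y = if I x y ∧ I x' y then 1 else 0 := by
  unfold ind
  by_cases h1 : I x y <;> by_cases h2 : I x' y <;> simp [h1, h2]

lemma ind_mul' (x : P) (y y' : Q) : ind I x y * ind I x y' = if I x y ∧ I x y' then 1 else 0 := by
  unfold ind
  by_cases h1 : I x y <;> by_cases h2 : I x y' <;> simp [h1, h2]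

lemma sum_block (h : Des I lam k A B) {y : Q} (hy : y ∈ B) : ∑ x ∈ A, ind I x y = k := by
  have h1 := h.block y hy
  unfold ind
  rw [Finset.sum_boole, h1]

lemma sum_pair (h : Des I lam k A B) {x x' : P} (hx : x ∈ A) (hx' : x' ∈ A) (hne : x ≠ x') :
    ∑ y ∈ B, ind I x y * ind I x' y = lam := by
  have h1 := h.pair x hx x' hx' hne
  simp only [ind_mul]
  rw [Finset.sum_boole, h1]

/-- the degree of a point -/
noncomputable def deg (I : P → Q → Prop) (B : Finset Q) (x : P) : ℤ := ∑ y ∈ B, ind I x y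

lemma ind_sq (x : P) (y : Q) : ind I x y * ind I x y = ind I x y := by
  unfold ind
  split_ifs <;> simp

lemma deg_mul (h : Des I lam k A B) {x : P} (hx : x ∈ A) :
    deg I B x * (k - 1) = lam * ((A.card : ℤ) - 1) := by
  have h1 : ∑ x' ∈ A, ∑ y ∈ B, ind I x y * ind I x' y = deg I B x * k := by
    rw [Finset.sum_comm, deg, Finset.sum_mul]
    refine Finset.sum_congr rfl fun y hy => ?_
    rw [← Finset.mul_sum, h.sum_block hy]
  rw [← Finset.add_sum_erase A _ hx] at h1
  have h2 : ∑ x' ∈ A.erase x, ∑ y ∈ B, ind I x y * ind I x' y = lam * ((A.card : ℤ) - 1) := by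
    rw [Finset.sum_congr rfl fun x' hx' => h.sum_pair hx (Finset.mem_of_mem_erase hx')
      (Finset.ne_of_mem_erase hx').symm, Finset.sum_const, Finset.card_erase_of_mem hx,
      nsmul_eq_mul, Nat.cast_sub (by
        have := h.lt
        have := h.two_le
        omega)]
    push_cast
    ring
  have h3 : ∑ y ∈ B, ind I x y * ind I x y = deg I B x := by
    rw [deg]
    exact Finset.sum_congr rfl fun y _ => ind_sq x y
  rw [h2, h3] at h1
  linear_combination -h1

lemma par (h : Des I lam k A B) : (k : ℤ) * (k - 1) = lam * ((A.card : ℤ) - 1) := by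
  have h1 : ∑ x ∈ A, deg I B x = (A.card : ℤ) * k := by
    unfold deg
    rw [Finset.sum_comm, Finset.sum_congr rfl fun y hy => h.sum_block hy, Finset.sum_const,
      h.card_eq, nsmul_eq_mul]
  have h2 : ∑ x ∈ A, deg I B x * ((k : ℤ) - 1) = A.card * (lam * ((A.card : ℤ) - 1)) := by
    rw [Finset.sum_congr rfl fun x hx => h.deg_mul hx, Finset.sum_const, nsmul_eq_mul]
  rw [← Finset.sum_mul, h1] at h2
  have h3 : (A.card : ℤ) ≠ 0 := by
    have := h.lt
    have := h.two_le
    omega
  apply mul_left_cancel₀ h3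
  linear_combination h2

lemma deg_eq (h : Des I lam k A B) {x : P} (hx : x ∈ A) : deg I B x = k := by
  have h1 := h.deg_mul hx
  rw [← h.par] at h1
  have h2 : ((k : ℤ) - 1) ≠ 0 := by
    have := h.two_le
    omega
  exact mul_right_cancel₀ h2 h1

lemma card_deg (h : Des I lam k A B) {x : P} (hx : x ∈ A) :
    (B.filter fun y => I x y).card = k := by
  have h1 := h.deg_eq hx
  unfold deg ind at h1
  rw [Finset.sum_boole] at h1
  exact_mod_cast h1

/-- the dual property -/
lemma meet (h : Des I lam k A B) {y y' : Q} (hy : y ∈ B) (hy' : y' ∈ B) (hne : y ≠ y') :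
    (A.filter fun x => I x y ∧ I x y').card = lam := by
  set a : Q → ℤ := fun z => ∑ x ∈ A, ind I x y * ind I x z with ha
  have h1 : ∑ z ∈ B, a z = (k : ℤ) * k := by
    rw [ha, Finset.sum_comm, ← h.sum_block hy, Finset.sum_mul]
    refine Finset.sum_congr rfl fun x hx => ?_
    rw [← Finset.mul_sum, h.sum_block hy]
    congr 1
    exact h.deg_eq hx
  have h2 : ∑ z ∈ B, a z * a z = lam * ((k : ℤ) * k) + (k - lam) * k := by
    have e1 : ∀ z, a z * a z = ∑ x ∈ A, ∑ x' ∈ A, ind I x y * ind I x' y *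
        (ind I x z * ind I x' z) := by
      intro z
      rw [ha, Finset.sum_mul_sum]
      refine Finset.sum_congr rfl fun x _ => Finset.sum_congr rfl fun x' _ => by ring
    have e2 : ∀ x ∈ A, ∑ z ∈ B, ∑ x' ∈ A, ind I x y * ind I x' y *
        (ind I x z * ind I x' z) = ind I x y * (lam * k + (k - lam)) := by
      intro x hx
      rw [Finset.sum_comm]
      simp only [← Finset.mul_sum]
      rw [← Finset.add_sum_erase A _ hx]
      have e3 : ∑ z ∈ B, ind I x z * ind I x z = k := by
        rw [Finset.sum_congr rfl fun z _ => ind_sq x z]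
        exact h.deg_eq hx
      rw [e3, Finset.sum_congr rfl fun x' hx' => by
        rw [h.sum_pair hx (Finset.mem_of_mem_erase hx') (Finset.ne_of_mem_erase hx').symm],
        ind_sq]
      have e4 : ∑ x' ∈ A.erase x, ind I x y * ind I x' y * (lam : ℤ) =
          ind I x y * (k - ind I x y) * lam := by
        rw [← Finset.sum_mul, ← Finset.mul_sum]
        congr 2
        have := Finset.add_sum_erase A (fun x' => ind I x' y) hx
        rw [h.sum_block hy] at this
        linarith
      rw [e4]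
      have e5 := ind_sq (I := I) x y
      linear_combination (-(lam : ℤ)) * e5
    rw [Finset.sum_congr rfl fun z _ => e1 z, Finset.sum_comm, Finset.sum_congr rfl e2]
    rw [← Finset.sum_mul, h.sum_block hy]
    ring
  have h3 : ∑ z ∈ B, (a z - lam) ^ 2 = ((k : ℤ) - lam) ^ 2 := by
    have e1 : ∑ z ∈ B, (a z - lam) ^ 2 = ∑ z ∈ B, a z * a z - 2 * lam * ∑ z ∈ B, a z +
        lam ^ 2 * A.card := by
      rw [← h.card_eq, Finset.mul_sum, ← Finset.sum_sub_distrib, mul_comm ((lam : ℤ) ^ 2),
        ← nsmul_eq_mul, ← Finset.sum_const, ← Finset.sum_add_distrib]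
      exact Finset.sum_congr rfl fun z _ => by ring
    rw [e1, h1, h2]
    have := h.par
    linear_combination (-(lam : ℤ)) * this
  have h4 : a y = k := by
    rw [ha]
    simp only [ind_sq]
    exact h.sum_block hy
  have h5 : a y' = lam := by
    have e1 : ({y, y'} : Finset Q) ⊆ B := by
      intro z hz
      rw [mem_insert, mem_singleton] at hz
      rcases hz with rfl | rfl
      · exact hy
      · exact hy'
    have e2 := Finset.sum_le_sum_of_subset_of_nonneg (f := fun z => (a z - lam) ^ 2) e1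
      (fun z _ _ => sq_nonneg _)
    rw [h3, Finset.sum_pair hne, h4] at e2
    have e3 : (a y' - lam) ^ 2 = 0 := le_antisymm (by linarith) (sq_nonneg _)
    have e4 := pow_eq_zero_iff (two_ne_zero) |>.1 e3
    linarith
  rw [ha] at h5
  simp only [ind_mul'] at h5
  rw [Finset.sum_boole] at h5
  exact_mod_cast h5

end Des

/-- **A Bruck type inequality.** -/
theorem bruck {lam k k₀ : ℕ} {A A₀ : Finset P} {B B₀ : Finset Q} (h : Des I lam k A B)
    (h₀ : Des I lam k₀ A₀ B₀) (hA : A₀ ⊆ A) (hB : B₀ ⊆ B) (hk : k₀ < k) :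
    lam * A₀.card + 1 ≤ k + k₀ := by
  obtain ⟨y₀, hy₀⟩ : B₀.Nonempty := by
    rw [← Finset.card_pos, h₀.card_eq]
    have := h₀.lt
    omega
  obtain ⟨x, hx, hx₀⟩ : ∃ x ∈ A.filter (fun x => I x y₀), x ∉ A₀ := by
    by_contra hcon
    push Not at hcon
    have h1 : A.filter (fun x => I x y₀) ⊆ A₀.filter fun x => I x y₀ := fun x hx =>
      mem_filter.2 ⟨hcon x hx, (mem_filter.1 hx).2⟩
    have h2 := Finset.card_le_card h1
    rw [h.block y₀ (hB hy₀), h₀.block y₀ hy₀] at h2
    omega
  obtain ⟨hxA, hxy₀⟩ := mem_filter.1 hx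
  -- the blocks through `x` and a point of `A₀`
  set S : P → Finset Q := fun z => (B.filter fun y => I x y ∧ I z y).erase y₀ with hS
  -- a block with two points in `A₀` is in `B₀`
  have hb : ∀ z ∈ A₀, ∀ z' ∈ A₀, z ≠ z' → ∀ y ∈ B, I z y → I z' y → y ∈ B₀ := by
    intro z hz z' hz' hne y hy h1 h2
    have e1 : B₀.filter (fun y => I z y ∧ I z' y) ⊆ B.filter fun y => I z y ∧ I z' y :=
      Finset.filter_subset_filter _ hB
    have e2 := Finset.eq_of_subset_of_card_le e1 (by
      rw [h.pair z (hA hz) z' (hA hz') hne, h₀.pair z hz z' hz' hne])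
    have e3 : y ∈ B₀.filter fun y => I z y ∧ I z' y := by
      rw [e2]
      exact mem_filter.2 ⟨hy, h1, h2⟩
    exact (mem_filter.1 e3).1
  -- a common point of two blocks in `B₀` is in `A₀`
  have hp : ∀ y ∈ B₀, y ≠ y₀ → ¬ I x y := by
    intro y hy hne h1
    have e1 : A₀.filter (fun x => I x y ∧ I x y₀) ⊆ A.filter fun x => I x y ∧ I x y₀ :=
      Finset.filter_subset_filter _ hA
    have e2 := Finset.eq_of_subset_of_card_le e1 (by
      rw [h.meet (hB hy) (hB hy₀) hne, h₀.meet hy hy₀ hne])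
    have e3 : x ∈ A₀.filter fun x => I x y ∧ I x y₀ := by
      rw [e2]
      exact mem_filter.2 ⟨hxA, h1, hxy₀⟩
    exact hx₀ (mem_filter.1 e3).1
  have hdis : (A₀ : Set P).PairwiseDisjoint S := by
    intro z hz z' hz' hne
    rw [Function.onFun, Finset.disjoint_left]
    intro y h1 h2
    rw [hS] at h1 h2
    simp only [mem_erase, mem_filter] at h1 h2
    exact hp y (hb z hz z' hz' hne y h1.2.1 h1.2.2.2 h2.2.2.2) h1.1 h1.2.2.1
  have hcard : ∀ z ∈ A₀, (S z).card + (if I z y₀ then 1 else 0) = lam := by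
    intro z hz
    have hxz : x ≠ z := by
      rintro rfl
      exact hx₀ hz
    have e1 := h.pair x hxA z (hA hz) hxz
    rw [hS]
    split_ifs with hzy
    · rw [Finset.card_erase_add_one, e1]
      exact mem_filter.2 ⟨hB hy₀, hxy₀, hzy⟩
    · simp only [add_zero]
      rw [Finset.erase_eq_of_notMem, e1]
      intro hcon
      exact hzy (mem_filter.1 hcon).2.2
  have hsum : ∑ z ∈ A₀, (S z).card + k₀ = lam * A₀.card := by
    have e1 : ∑ z ∈ A₀, ((S z).card + (if I z y₀ then 1 else 0)) = ∑ _z ∈ A₀, lam :=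
      Finset.sum_congr rfl hcard
    rw [Finset.sum_add_distrib, Finset.sum_boole, h₀.block y₀ hy₀, Finset.sum_const,
      smul_eq_mul, mul_comm] at e1
    simpa using e1
  have hunion : (A₀.biUnion S) ⊆ (B.filter fun y => I x y).erase y₀ := by
    intro y hy
    obtain ⟨z, _, hz⟩ := mem_biUnion.1 hy
    rw [hS] at hz
    simp only [mem_erase, mem_filter] at hz
    exact mem_erase.2 ⟨hz.1, mem_filter.2 ⟨hz.2.1, hz.2.2.1⟩⟩
  have hle := Finset.card_le_card hunion
  rw [Finset.card_biUnion (fun z hz z' hz' hne => hdis hz hz' hne),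
    Finset.card_erase_of_mem (mem_filter.2 ⟨hB hy₀, hxy₀⟩), h.card_deg hxA] at hle
  have := h.two_le
  omega

/-- the inequality for the numbers `√(λ v)` -/
theorem bruck_sqrt {lam k k₀ : ℕ} {A A₀ : Finset P} {B B₀ : Finset Q} (h : Des I lam k A B)
    (h₀ : Des I lam k₀ A₀ B₀) (hA : A₀ ⊆ A) (hB : B₀ ⊆ B) :
    A.card = A₀.card ∨ (lam : ℝ) * A₀.card - √(lam * A₀.card) - 1 ≤ √(lam * A.card) := by
  by_cases hv : A.card = A₀.card
  · exact Or.inl hv
  right
  have hv' : A₀.card < A.card := lt_of_le_of_ne (Finset.card_le_card hA) (Ne.symm hv)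
  have hp := h.par
  have hp₀ := h₀.par
  have hlt := h.lt
  have hlt₀ := h₀.lt
  have h2 := h.two_le
  have h2₀ := h₀.two_le
  have hlam : 0 < lam := by
    rcases Nat.eq_zero_or_pos lam with h0 | h0
    · rw [h0] at hp
      simp only [Nat.cast_zero, zero_mul] at hp
      have h3 : (k : ℤ) ≠ 0 := by omega
      have h4 : (k : ℤ) - 1 ≠ 0 := by omega
      exact absurd hp (mul_ne_zero h3 h4)
    · exact h0
  have hk : k₀ < k := by
    by_contra hcon
    push Not at hcon
    have h3 : (k : ℤ) * (k - 1) ≤ k₀ * (k₀ - 1) := by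
      have h4 : (k : ℤ) ≤ k₀ := by exact_mod_cast hcon
      have h5 : (2 : ℤ) ≤ k := by exact_mod_cast h2
      nlinarith
    rw [hp, hp₀] at h3
    have h4 : ((A₀.card : ℕ) : ℤ) < A.card := by exact_mod_cast hv'
    have h5 : (0 : ℤ) < lam := by exact_mod_cast hlam
    nlinarith
  have hb := bruck h h₀ hA hB hk
  have hbR : (lam : ℝ) * A₀.card + 1 ≤ k + k₀ := by exact_mod_cast hb
  have hpR : (k : ℝ) * (k - 1) = lam * ((A.card : ℝ) - 1) := by exact_mod_cast hp
  have hpR₀ : (k₀ : ℝ) * (k₀ - 1) = lam * ((A₀.card : ℝ) - 1) := by exact_mod_cast hp₀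
  have hlamR : (0 : ℝ) < lam := by exact_mod_cast hlam
  have hkR : (2 : ℝ) ≤ k := by exact_mod_cast h2
  have hkR₀ : (2 : ℝ) ≤ k₀ := by exact_mod_cast h2₀
  have e1 : (k : ℝ) - 1 ≤ √(lam * A.card) := by
    apply Real.le_sqrt_of_sq_le
    nlinarith
  have e2 : (k₀ : ℝ) - 1 ≤ √(lam * A₀.card) := by
    apply Real.le_sqrt_of_sq_le
    nlinarith
  linarith

end Pool.Agent.T2H18.FF
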