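import Mathlib

/-!
# Cesàro means of exponential sums, and their small values
-/

set_option autoImplicit false

namespace Pool.Agent.T2H18.FF

open Finset Filter Topology

/-- the mean over the first `M` numbers -/
noncomputable def mean {E : Type} [AddCommGroup E] [Module ℝ E] (f : ℕ → E) (M : ℕ) : E :=
  (M : ℝ)⁻¹ • ∑ m ∈ range M, f m

lemma mean_add {E : Type} [AddCommGroup E] [Module ℝ E] (f g : ℕ → E) (M : ℕ) :
    mean (fun m => f m + g m) M = mean f M + mean g M := by
  unfold mean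
  rw [Finset.sum_add_distrib, smul_add]

lemma mean_sum {E ι : Type} [AddCommGroup E] [Module ℝ E] (s : Finset ι) (f : ι → ℕ → E) (M : ℕ) :
    mean (fun m => ∑ i ∈ s, f i m) M = ∑ i ∈ s, mean (f i) M := by
  unfold mean
  rw [Finset.sum_comm, Finset.smul_sum]

lemma mean_tendsto_zero {E : Type} [NormedAddCommGroup E] [NormedSpace ℝ E] {f : ℕ → E}
    (hf : Tendsto f atTop (𝓝 0)) : Tendsto (mean f) atTop (𝓝 0) := by
  have := hf.cesaro_smul
  exact this

lemma mean_mul (c : ℂ) (f : ℕ → ℂ) (M : ℕ) : mean (fun m => c * f m) M = c * mean f M := by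
  unfold mean
  rw [← Finset.mul_sum]
  simp only [Complex.real_smul]
  ring

/-- the mean of the powers of a unimodular number -/
lemma mean_pow {γ : ℂ} (h : ‖γ‖ = 1) :
    Tendsto (mean fun m => γ ^ m) atTop (𝓝 (if γ = 1 then 1 else 0)) := by
  split_ifs with h1
  · subst h1
    refine tendsto_const_nhds.congr' ?_
    filter_upwards [eventually_gt_atTop 0] with M hM
    unfold mean
    have : (M : ℂ) ≠ 0 := by exact_mod_cast hM.ne'
    simp [this]
  · have hne : γ - 1 ≠ 0 := sub_ne_zero.2 h1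
    have hpos : 0 < ‖γ - 1‖ := norm_pos_iff.2 hne
    rw [tendsto_zero_iff_norm_tendsto_zero]
    refine squeeze_zero (fun M => norm_nonneg _) (g := fun M : ℕ => (M : ℝ)⁻¹ * (2 / ‖γ - 1‖))
      (fun M => ?_) ?_
    · unfold mean
      rw [norm_smul, norm_inv, Real.norm_natCast]
      refine mul_le_mul_of_nonneg_left ?_ (by positivity)
      rw [geom_sum_eq h1, norm_div]
      refine div_le_div_of_nonneg_right ?_ hpos.le
      calc ‖γ ^ M - 1‖ ≤ ‖γ ^ M‖ + ‖(1 : ℂ)‖ := norm_sub_le _ _
        _ = 2 := by rw [norm_pow, h, one_pow, norm_one]; norm_num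
    · have := tendsto_inv_atTop_nhds_zero_nat (𝕜 := ℝ)
      simpa using this.mul_const (2 / ‖γ - 1‖)

lemma mean_exp {ι : Type} (s : Finset ι) (b γ : ι → ℂ) (h : ∀ i ∈ s, ‖γ i‖ = 1) :
    Tendsto (mean fun m => ∑ i ∈ s, b i * γ i ^ m) atTop
      (𝓝 (∑ i ∈ s, b i * if γ i = 1 then 1 else 0)) := by
  have h1 : (mean fun m => ∑ i ∈ s, b i * γ i ^ m) =
      fun M => ∑ i ∈ s, b i * mean (fun m => γ i ^ m) M := by
    funext M
    rw [mean_sum]
    exact Finset.sum_congr rfl fun i _ => mean_mul _ _ _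
  rw [h1]
  exact tendsto_finsetSum _ fun i hi => (mean_pow (h i hi)).const_mul _

/-- sets of natural density zero -/
def Sparse (Z : Set ℕ) : Prop :=
  Tendsto (mean fun m => Z.indicator (fun _ => (1 : ℝ)) m) atTop (𝓝 0)

lemma Sparse.mono {Z W : Set ℕ} (hW : Sparse W) (h : Z ⊆ W) : Sparse Z := by
  refine squeeze_zero (fun M => ?_) (fun M => ?_) hW
  · unfold mean
    exact smul_nonneg (by positivity) (Finset.sum_nonneg fun m _ =>
      Set.indicator_nonneg (fun _ _ => zero_le_one) m)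
  · unfold mean
    refine smul_le_smul_of_nonneg_left ?_ (by positivity)
    exact Finset.sum_le_sum fun m _ => Set.indicator_le_indicator_of_subset h
      (fun _ => zero_le_one) m

lemma mean_ind_eq (Z : Set ℕ) (M : ℕ) [DecidablePred (· ∈ Z)] :
    mean (fun m => Z.indicator (fun _ => (1 : ℝ)) m) M =
      (M : ℝ)⁻¹ * ((range M).filter (· ∈ Z)).card := by
  unfold mean
  rw [smul_eq_mul]
  congr 1
  simp only [Set.indicator_apply]
  rw [Finset.sum_boole]

/-- if no two elements of `Z` are close, apart from the elements in sparse sets -/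
lemma sparse_of_shifts {Z : Set ℕ} (h : ∀ d, 1 ≤ d → Sparse {m | m ∈ Z ∧ m + d ∈ Z}) :
    Sparse Z := by
  classical
  unfold Sparse
  rw [Metric.tendsto_atTop]
  intro ε hε
  obtain ⟨n, hn⟩ := exists_nat_gt (2 / ε)
  have hn0 : 0 < (n : ℝ) := lt_trans (by positivity) hn
  have hn0' : 0 < n := by exact_mod_cast hn0
  have h1 : Tendsto (fun M => ∑ d ∈ Ico 1 n,
      mean (fun m => {m | m ∈ Z ∧ m + d ∈ Z}.indicator (fun _ => (1 : ℝ)) m) M +
        (M : ℝ)⁻¹) atTop (𝓝 0) := by
    have e1 : Tendsto (fun M => ∑ d ∈ Ico 1 n,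
      mean (fun m => {m | m ∈ Z ∧ m + d ∈ Z}.indicator (fun _ => (1 : ℝ)) m) M) atTop
        (𝓝 (∑ d ∈ Ico 1 n, (0 : ℝ))) :=
      tendsto_finsetSum _ fun d hd => h d (Finset.mem_Ico.1 hd).1
    rw [Finset.sum_const_zero] at e1
    simpa using e1.add (tendsto_inv_atTop_nhds_zero_nat (𝕜 := ℝ))
  rw [Metric.tendsto_atTop] at h1
  obtain ⟨M₀, hM₀⟩ := h1 (ε / 2) (by linarith)
  refine ⟨M₀ + 1, fun M hM => ?_⟩
  have h2 := hM₀ M (by omega)
  rw [Real.dist_eq, sub_zero] at h2 ⊢
  have hMpos : 0 < (M : ℝ) := by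
    have : 0 < M := by omega
    exact_mod_cast this
  have hnn : 0 ≤ mean (fun m => Z.indicator (fun _ => (1 : ℝ)) m) M := by
    unfold mean
    exact smul_nonneg (by positivity) (Finset.sum_nonneg fun m _ =>
      Set.indicator_nonneg (fun _ _ => zero_le_one) m)
  rw [abs_of_nonneg hnn]
  -- the counting
  have hcount : ((range M).filter (· ∈ Z)).card ≤
      ∑ d ∈ Ico 1 n, ((range M).filter (· ∈ {m | m ∈ Z ∧ m + d ∈ Z})).card + (M / n + 1) := by
    set S := (range M).filter fun m => m ∈ Z ∧ ∀ d ∈ Ico 1 n, m + d ∉ Z with hS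
    have e1 : (range M).filter (· ∈ Z) ⊆
        ((Ico 1 n).biUnion fun d => (range M).filter (· ∈ {m | m ∈ Z ∧ m + d ∈ Z})) ∪ S := by
      intro m hm
      rw [mem_filter] at hm
      by_cases hd : ∀ d ∈ Ico 1 n, m + d ∉ Z
      · exact mem_union_right _ (mem_filter.2 ⟨hm.1, hm.2, hd⟩)
      · push Not at hd
        obtain ⟨d, hd1, hd2⟩ := hd
        exact mem_union_left _ (mem_biUnion.2 ⟨d, hd1, mem_filter.2 ⟨hm.1, hm.2, hd2⟩⟩)
    have e2 : S.card ≤ M / n + 1 := by
      have e3 : Set.InjOn (fun m => m / n) (S : Set ℕ) := by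
        intro m hm m' hm' heq
        simp only at heq
        by_contra hne
        wlog hlt : m < m' generalizing m m'
        · exact this hm' hm heq.symm (Ne.symm hne) (by omega)
        have hm1 := (mem_filter.1 hm).2.2 (m' - m)
        have h5 : m' - m < n := by
          have h6 := Nat.div_add_mod m n
          have h7 := Nat.div_add_mod m' n
          have h8 := Nat.mod_lt m' hn0'
          rw [heq] at h6
          omega
        refine hm1 (mem_Ico.2 ⟨by omega, h5⟩) ?_
        rw [show m + (m' - m) = m' by omega]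
        exact (mem_filter.1 hm').2.1
      calc S.card = (S.image fun m => m / n).card := (Finset.card_image_of_injOn e3).symm
        _ ≤ (range (M / n + 1)).card := by
            refine Finset.card_le_card fun q hq => ?_
            obtain ⟨m, hm, rfl⟩ := mem_image.1 hq
            have := mem_range.1 (mem_filter.1 hm).1
            exact mem_range.2 (Nat.lt_succ_of_le (Nat.div_le_div_right this.le))
        _ = M / n + 1 := card_range _
    refine (Finset.card_le_card e1).trans ((Finset.card_union_le _ _).trans ?_)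
    exact Nat.add_le_add Finset.card_biUnion_le e2
  have h3 : mean (fun m => Z.indicator (fun _ => (1 : ℝ)) m) M ≤ (∑ d ∈ Ico 1 n,
      mean (fun m => {m | m ∈ Z ∧ m + d ∈ Z}.indicator (fun _ => (1 : ℝ)) m) M +
        (M : ℝ)⁻¹) + 1 / n := by
    rw [mean_ind_eq, Finset.sum_congr rfl fun d _ => mean_ind_eq {m | m ∈ Z ∧ m + d ∈ Z} M,
      ← Finset.mul_sum]
    have h4 : (((range M).filter (· ∈ Z)).card : ℝ) ≤
      ∑ d ∈ Ico 1 n, (((range M).filter (· ∈ {m | m ∈ Z ∧ m + d ∈ Z})).card : ℝ) +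
        (M / n + 1) := by
      have h5 : (((range M).filter (· ∈ Z)).card : ℝ) ≤
        ((∑ d ∈ Ico 1 n, ((range M).filter (· ∈ {m | m ∈ Z ∧ m + d ∈ Z})).card +
          (M / n + 1) : ℕ) : ℝ) := by exact_mod_cast hcount
      refine h5.trans ?_
      push_cast
      have h6 : ((M / n : ℕ) : ℝ) ≤ (M : ℝ) / n := Nat.cast_div_le
      linarith
    calc (M : ℝ)⁻¹ * (((range M).filter (· ∈ Z)).card : ℝ) ≤ (M : ℝ)⁻¹ *
        (∑ d ∈ Ico 1 n, (((range M).filter (· ∈ {m | m ∈ Z ∧ m + d ∈ Z})).card : ℝ) +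
        (M / n + 1)) := mul_le_mul_of_nonneg_left h4 (by positivity)
      _ = _ := by field_simp; ring
  have h4 : (1 : ℝ) / n < ε / 2 := by
    rw [div_lt_iff₀ hn0]
    rw [div_lt_iff₀ hε] at hn
    linarith
  have h5 := (abs_lt.1 h2).2
  linarith

/-- small values of a non-degenerate exponential sum are rare -/
theorem small_values {ι : Type} (n : ℕ) : ∀ (s : Finset ι), s.card = n → s.Nonempty →
    ∀ (b γ : ι → ℂ), (∀ i ∈ s, ‖γ i‖ = 1) → (∀ i ∈ s, b i ≠ 0) →
    (∀ i ∈ s, ∀ j ∈ s, i ≠ j → ∀ d, 1 ≤ d → γ i ^ d ≠ γ j ^ d) →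
    ∀ ε : ℕ → ℝ, Tendsto ε atTop (𝓝 0) →
      Sparse {m | ‖∑ i ∈ s, b i * γ i ^ m‖ ≤ ε m} := by
  classical
  induction n with
  | zero =>
    intro s hs hne
    rw [Finset.card_eq_zero] at hs
    exact absurd hs hne.ne_empty
  | succ n ih =>
    intro s hs hne b γ hγ hb hnd ε hε
    obtain ⟨i₀, hi₀⟩ := hne
    rcases Nat.eq_zero_or_pos n with hn0 | hn0
    · -- a single term
      have hs1 : s = {i₀} := by
        rw [hn0, zero_add, Finset.card_eq_one] at hs
        obtain ⟨a, ha⟩ := hs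
        rw [ha, mem_singleton] at hi₀
        rw [ha, hi₀]
      have h1 : ∀ m, ‖∑ i ∈ s, b i * γ i ^ m‖ = ‖b i₀‖ := by
        intro m
        rw [hs1, Finset.sum_singleton, norm_mul, norm_pow, hγ i₀ hi₀, one_pow, mul_one]
      simp only [h1]
      have hpos : 0 < ‖b i₀‖ := norm_pos_iff.2 (hb i₀ hi₀)
      obtain ⟨M₀, hM₀⟩ := (eventually_atTop.1 (hε.eventually (gt_mem_nhds hpos)))
      unfold Sparse
      apply mean_tendsto_zero
      refine tendsto_const_nhds.congr' ?_
      filter_upwards [eventually_ge_atTop M₀] with m hm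
      rw [Set.indicator_of_notMem]
      exact fun h => absurd (hM₀ m hm) (not_lt.2 h)
    · apply sparse_of_shifts
      intro d hd
      have hcard : (s.erase i₀).card = n := by
        rw [Finset.card_erase_of_mem hi₀, hs]
        omega
      have hne' : (s.erase i₀).Nonempty := by
        rw [← Finset.card_pos, hcard]
        exact hn0
      have h1 := ih (s.erase i₀) hcard hne' (fun i => b i * (γ i ^ d - γ i₀ ^ d)) γ
        (fun i hi => hγ i (mem_of_mem_erase hi))
        (fun i hi => mul_ne_zero (hb i (mem_of_mem_erase hi)) (sub_ne_zero.2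
          (hnd i (mem_of_mem_erase hi) i₀ hi₀ (ne_of_mem_erase hi) d hd)))
        (fun i hi j hj => hnd i (mem_of_mem_erase hi) j (mem_of_mem_erase hj))
        (fun m => ε (m + d) + ε m) (by
          have := (hε.comp (tendsto_add_atTop_nat d)).add hε
          simpa using this)
      refine h1.mono fun m hm => ?_
      obtain ⟨hm1, hm2⟩ := hm
      simp only [Set.mem_ofPred_eq] at hm1 hm2 ⊢
      have e1 : ∑ i ∈ s.erase i₀, b i * (γ i ^ d - γ i₀ ^ d) * γ i ^ m =
          (∑ i ∈ s, b i * γ i ^ (m + d)) - γ i₀ ^ d * ∑ i ∈ s, b i * γ i ^ m := by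
        rw [Finset.mul_sum, ← Finset.sum_sub_distrib, ← Finset.add_sum_erase s _ hi₀]
        have e2 : b i₀ * γ i₀ ^ (m + d) - γ i₀ ^ d * (b i₀ * γ i₀ ^ m) = 0 := by
          rw [pow_add]; ring
        rw [e2, zero_add]
        refine Finset.sum_congr rfl fun i _ => ?_
        rw [pow_add]; ring
      rw [e1]
      refine (norm_sub_le _ _).trans ?_
      rw [norm_mul, norm_pow, hγ i₀ hi₀, one_pow, one_mul]
      exact add_le_add hm2 hm1

end Pool.Agent.T2H18.FF
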