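import Pool.Agent.T2H18.FF.Ces

/-!
# The contradiction from the doubling inequality
-/

set_option autoImplicit false

namespace Pool.Agent.T2H18.FF

open Finset Filter Topology ComplexConjugate

lemma mean_ofReal (f : ℕ → ℝ) (M : ℕ) : ((mean f M : ℝ) : ℂ) = mean (fun m => (f m : ℂ)) M := by
  unfold mean
  simp [Complex.real_smul]

lemma mean_nonneg_limit {f : ℕ → ℝ} {l : ℝ} (hf : ∀ᶠ m in atTop, 0 ≤ f m)
    (h : Tendsto (mean f) atTop (𝓝 l)) : 0 ≤ l := by
  have h1 : Tendsto (fun m => max (f m) 0 - f m) atTop (𝓝 0) := by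
    refine tendsto_const_nhds.congr' ?_
    filter_upwards [hf] with m hm
    rw [max_eq_left hm, sub_self]
  have h2 := h.add (mean_tendsto_zero h1)
  rw [add_zero] at h2
  refine ge_of_tendsto' h2 fun M => ?_
  rw [← mean_add]
  unfold mean
  refine smul_nonneg (by positivity) (Finset.sum_nonneg fun m _ => ?_)
  have := le_max_right (f m) 0
  linarith

theorem contra {ι : Type} {s : Finset ι} (hs : s.Nonempty) (c : ι → ℤ) (γ : ι → ℂ)
    (hγ : ∀ i ∈ s, ‖γ i‖ = 1) (hc : ∀ i ∈ s, c i ≠ 0)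
    (hnd : ∀ i ∈ s, ∀ j ∈ s, i ≠ j → ∀ d, 1 ≤ d → γ i ^ d ≠ γ j ^ d) (w : ℕ → ℝ)
    (hw : Tendsto (fun m => (w m : ℂ) - ∑ i ∈ s, (c i : ℂ) * γ i ^ m) atTop (𝓝 0))
    (δ : ℕ → ℝ) (hδ : Tendsto δ atTop (𝓝 0)) (lam : ℝ) (hlam : 2 ≤ lam)
    (h : ∀ᶠ m in atTop, |w (2 * m)| ≤ δ m ∨ lam * w m ^ 2 - δ m ≤ w (2 * m)) : False := by
  classical
  obtain ⟨g, hg⟩ : ∃ g : ℕ → ℂ, g = fun m => ∑ i ∈ s, (c i : ℂ) * γ i ^ m := ⟨_, rfl⟩
  obtain ⟨e, he⟩ : ∃ e : ℕ → ℂ, e = fun m => (w m : ℂ) - g m := ⟨_, rfl⟩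
  have he0 : Tendsto e atTop (𝓝 0) := by rw [he, hg]; exact hw
  have hwe : ∀ m, (w m : ℂ) = g m + e m := fun m => by rw [he]; ring
  obtain ⟨G, hG⟩ : ∃ G : ℝ, G = ∑ i ∈ s, ‖(c i : ℂ)‖ := ⟨_, rfl⟩
  have hGle : ∀ m, ‖g m‖ ≤ G := by
    intro m
    rw [hg, hG]
    refine (norm_sum_le _ _).trans (Finset.sum_le_sum fun i hi => ?_)
    rw [norm_mul, norm_pow, hγ i hi, one_pow, mul_one]
  have hG0 : 0 ≤ G := (norm_nonneg _).trans (hGle 0)
  have h2 : Tendsto (fun m : ℕ => 2 * m) atTop atTop :=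
    tendsto_atTop_mono (fun m => by
      simp only [id]
      omega) tendsto_id
  -- the mean of `w (2 m)`
  obtain ⟨C₁, hC₁⟩ : ∃ C₁ : ℝ, C₁ = ∑ i ∈ s, (c i : ℝ) * if γ i ^ 2 = 1 then 1 else 0 := ⟨_, rfl⟩
  have m1 : Tendsto (mean fun m => w (2 * m)) atTop (𝓝 C₁) := by
    have e1 := mean_exp s (fun i => (c i : ℂ)) (fun i => γ i ^ 2) (fun i hi => by
      rw [norm_pow, hγ i hi, one_pow])
    have e2 := e1.add (mean_tendsto_zero (he0.comp h2))
    have e3 : Tendsto (fun M => ((mean (fun m => w (2 * m)) M : ℝ) : ℂ)) atTop (𝓝 (C₁ : ℂ)) := by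
      have e4 : ((C₁ : ℝ) : ℂ) = (∑ i ∈ s, (c i : ℂ) * if γ i ^ 2 = 1 then 1 else 0) + 0 := by
        rw [hC₁]
        push_cast
        rw [add_zero]
        refine Finset.sum_congr rfl fun i _ => ?_
        split_ifs <;> simp
      rw [e4]
      refine e2.congr fun M => ?_
      rw [← mean_add, mean_ofReal]
      congr 1
      funext m
      rw [hwe (2 * m), hg]
      simp only [Function.comp]
      congr 1
      refine Finset.sum_congr rfl fun i _ => ?_
      rw [← pow_mul]
    exact (Complex.continuous_re.tendsto _).comp e3 |>.congr fun M => Complex.ofReal_re _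
  -- the mean of `w m ^ 2`
  obtain ⟨C₂, hC₂⟩ : ∃ C₂ : ℝ, C₂ = ∑ i ∈ s, (c i : ℝ) ^ 2 := ⟨_, rfl⟩
  have m2 : Tendsto (mean fun m => w m ^ 2) atTop (𝓝 C₂) := by
    have e1 := mean_exp (s ×ˢ s) (fun p => (c p.1 : ℂ) * c p.2) (fun p => γ p.1 * conj (γ p.2))
      (fun p hp => by
        rw [mem_product] at hp
        rw [norm_mul, RCLike.norm_conj, hγ _ hp.1, hγ _ hp.2, one_mul])
    have hlim : (∑ p ∈ s ×ˢ s, (c p.1 : ℂ) * c p.2 *
        if γ p.1 * conj (γ p.2) = 1 then 1 else 0) = (C₂ : ℂ) := by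
      rw [Finset.sum_product, hC₂]
      push_cast
      refine Finset.sum_congr rfl fun i hi => ?_
      rw [← Finset.add_sum_erase s _ hi]
      have f1 : γ i * conj (γ i) = 1 := by
        rw [Complex.mul_conj, Complex.normSq_eq_norm_sq, hγ i hi]
        simp
      simp only [f1, if_true, mul_one]
      rw [Finset.sum_eq_zero, add_zero, sq]
      intro j hj
      rw [if_neg, mul_zero]
      intro f2
      apply hnd i hi j (mem_of_mem_erase hj) (ne_of_mem_erase hj).symm 1 le_rfl
      rw [pow_one, pow_one]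
      have f3 : γ j * conj (γ j) = 1 := by
        rw [Complex.mul_conj, Complex.normSq_eq_norm_sq, hγ j (mem_of_mem_erase hj)]
        simp
      have f4 : conj (γ j) ≠ 0 := by
        intro f5
        rw [f5, mul_zero] at f3
        exact zero_ne_one f3
      exact mul_right_cancel₀ f4 (f2.trans f3.symm)
    rw [hlim] at e1
    have herr : Tendsto (fun m => e m * conj (g m) + g m * conj (e m) + e m * conj (e m)) atTop
        (𝓝 0) := by
      have z1 : Tendsto (fun m => (G + G + ‖e m‖) * ‖e m‖) atTop (𝓝 0) := by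
        have z2 := he0.norm
        rw [norm_zero] at z2
        have := (z2.const_add (G + G)).mul z2
        simpa using this
      refine squeeze_zero_norm (fun m => ?_) z1
      refine (norm_add_le _ _).trans ?_
      refine (add_le_add (norm_add_le _ _) le_rfl).trans ?_
      rw [norm_mul, norm_mul, norm_mul, RCLike.norm_conj, RCLike.norm_conj]
      have := hGle m
      have := norm_nonneg (e m)
      nlinarith
    have e2 := e1.add (mean_tendsto_zero herr)
    rw [add_zero] at e2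
    have e3 : Tendsto (fun M => ((mean (fun m => w m ^ 2) M : ℝ) : ℂ)) atTop (𝓝 (C₂ : ℂ)) := by
      refine e2.congr fun M => ?_
      rw [← mean_add, mean_ofReal]
      congr 1
      funext m
      have f1 : ((w m ^ 2 : ℝ) : ℂ) = (w m : ℂ) * conj (w m : ℂ) := by
        rw [Complex.conj_ofReal]
        push_cast
        ring
      have f2 : ∑ p ∈ s ×ˢ s, (c p.1 : ℂ) * c p.2 * (γ p.1 * conj (γ p.2)) ^ m =
          g m * conj (g m) := by
        rw [hg]
        simp only [map_sum, map_mul, map_pow, map_intCast]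
        rw [Finset.sum_mul_sum, Finset.sum_product]
        refine Finset.sum_congr rfl fun i _ => Finset.sum_congr rfl fun j _ => ?_
        rw [mul_pow]
        ring
      rw [f1, hwe m, f2, map_add]
      ring
    exact (Complex.continuous_re.tendsto _).comp e3 |>.congr fun M => Complex.ofReal_re _
  -- the exceptional set
  obtain ⟨B, hB⟩ : ∃ B : Set ℕ, B = {m | ‖∑ i ∈ s, (c i : ℂ) * (γ i ^ 2) ^ m‖ ≤
    |δ m| + ‖e (2 * m)‖} := ⟨_, rfl⟩
  have hBs : Sparse B := by
    rw [hB]
    refine small_values s.card s rfl hs (fun i => (c i : ℂ)) (fun i => γ i ^ 2) (fun i hi => by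
      rw [norm_pow, hγ i hi, one_pow]) (fun i hi => by exact_mod_cast hc i hi)
      (fun i hi j hj hij d hd => by
        rw [← pow_mul, ← pow_mul]
        exact hnd i hi j hj hij _ (by omega)) _ ?_
    have z1 := (he0.comp h2).norm
    rw [norm_zero] at z1
    have z2 := hδ.abs
    rw [abs_zero] at z2
    simpa using z2.add z1
  obtain ⟨K, hK⟩ : ∃ K : ℝ, K = lam * (G + 1) ^ 2 := ⟨_, rfl⟩
  have m3 : Tendsto (mean fun m => w (2 * m) + (-lam) * w m ^ 2 + |δ m| +
      K * B.indicator (fun _ => (1 : ℝ)) m) atTop (𝓝 (C₁ + (-lam) * C₂ + 0 + K * 0)) := by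
    have z2 := hδ.abs
    rw [abs_zero] at z2
    have z3 := ((m1.add (m2.const_mul (-lam))).add (mean_tendsto_zero z2)).add (hBs.const_mul K)
    refine z3.congr fun M => ?_
    rw [mean_add, mean_add, mean_add]
    congr 1
    · congr 1
      congr 1
      unfold mean
      rw [← Finset.mul_sum]
      simp only [smul_eq_mul]
      ring
    · unfold mean
      rw [← Finset.mul_sum]
      simp only [smul_eq_mul]
      ring
  have hpos : ∀ᶠ m in atTop, 0 ≤ w (2 * m) + (-lam) * w m ^ 2 + |δ m| +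
      K * B.indicator (fun _ => (1 : ℝ)) m := by
    have z1 : ∀ᶠ m in atTop, ‖e m‖ ≤ 1 := by
      have := he0.norm
      rw [norm_zero] at this
      exact this.eventually (ge_mem_nhds zero_lt_one)
    filter_upwards [h, z1] with m hm hm1
    have hK0 : 0 ≤ K := by rw [hK]; positivity
    rcases hm with hm | hm
    · have hmB : m ∈ B := by
        rw [hB]
        have f1 : ∑ i ∈ s, (c i : ℂ) * (γ i ^ 2) ^ m = (w (2 * m) : ℂ) - e (2 * m) := by
          rw [hwe (2 * m), hg]
          simp only [← pow_mul]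
          ring
        rw [Set.mem_ofPred_eq, f1]
        refine (norm_sub_le _ _).trans ?_
        refine add_le_add ?_ le_rfl
        rw [Complex.norm_real, Real.norm_eq_abs]
        exact hm.trans (le_abs_self _)
      rw [Set.indicator_of_mem hmB, mul_one]
      have f2 : |w m| ≤ G + 1 := by
        have f3 : ‖(w m : ℂ)‖ ≤ G + 1 := by
          rw [hwe m]
          exact (norm_add_le _ _).trans (add_le_add (hGle m) hm1)
        rwa [Complex.norm_real, Real.norm_eq_abs] at f3
      have f4 : w m ^ 2 ≤ (G + 1) ^ 2 := by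
        rw [← sq_abs]
        exact pow_le_pow_left₀ (abs_nonneg _) f2 2
      have f5 : lam * w m ^ 2 ≤ K := by
        rw [hK]
        exact mul_le_mul_of_nonneg_left f4 (by linarith)
      have f6 := (abs_le.1 hm).1
      have f7 := le_abs_self (δ m)
      linarith
    · have f1 : 0 ≤ K * B.indicator (fun _ => (1 : ℝ)) m :=
        mul_nonneg hK0 (Set.indicator_nonneg (fun _ _ => zero_le_one) m)
      have f7 := le_abs_self (δ m)
      linarith
  have hfin := mean_nonneg_limit hpos m3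
  -- the arithmetic
  have hge : lam * C₂ ≤ C₁ := by linarith
  by_cases hex : ∃ i ∈ s, γ i ^ 2 = 1
  · obtain ⟨i, hi, hi2⟩ := hex
    have e1 : C₁ = c i := by
      rw [hC₁, ← Finset.add_sum_erase s _ hi, if_pos hi2, mul_one, Finset.sum_eq_zero, add_zero]
      intro j hj
      rw [if_neg, mul_zero]
      intro hj2
      exact hnd i hi j (mem_of_mem_erase hj) (ne_of_mem_erase hj).symm 2 (by norm_num)
        (hi2.trans hj2.symm)
    have e2 : (c i : ℝ) ^ 2 ≤ C₂ := by
      rw [hC₂]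
      exact Finset.single_le_sum (f := fun i => (c i : ℝ) ^ 2) (fun j _ => sq_nonneg _) hi
    have e3 : (2 : ℝ) * (c i : ℝ) ^ 2 ≤ c i := by
      rw [← e1]
      have := sq_nonneg (c i : ℝ)
      nlinarith
    have e4 : 2 * (c i) ^ 2 ≤ c i := by exact_mod_cast e3
    have e5 := hc i hi
    have e6 : 1 ≤ (c i) ^ 2 := by
      have := sq_pos_iff.2 e5 
      omega
    nlinarith
  · push Not at hex
    have e1 : C₁ = 0 := by
      rw [hC₁]
      refine Finset.sum_eq_zero fun j hj => ?_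
      rw [if_neg (hex j hj), mul_zero]
    obtain ⟨i, hi⟩ := hs
    have e2 : (c i : ℝ) ^ 2 ≤ C₂ := by
      rw [hC₂]
      exact Finset.single_le_sum (f := fun i => (c i : ℝ) ^ 2) (fun j _ => sq_nonneg _) hi
    have e3 : (0 : ℝ) < (c i : ℝ) ^ 2 := by
      have : (c i : ℝ) ≠ 0 := by exact_mod_cast hc i hi
      positivity
    nlinarith

end Pool.Agent.T2H18.FF
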